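import Pool.Agent.W759.Fin
import Pool.Agent.W759.Phi3
import Pool.Agent.W12.SqMeas
import Pool.Agent.W741.SqMax
import Pool.Agent.W741.SqUniq
import Pool.Agent.W345.SQ.Theta
import Pool.Agent.W345.SQ.Fin2
import Pool.Agent.W345.Phi.Phi1
import Pool.Agent.W345.Phi.Phi2
import Pool.Agent.W345.Phi.Phi4
set_option autoImplicit false

/-! The square roots of the nonnegative integers form a Fourier uniqueness pair for the weighted
space of even functions. -/

namespace Pool.Agent.Results.MP_860c65_an.SqrtUniqueness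

open MeasureTheory Pool.Agent.W759
open scoped FourierTransform

/-- If `f` is continuous and even, `f` and its Fourier transform are square integrable against
`(1+x^2)dx`, and both vanish at `√n` for all integers `n ≥ 0`, then `f = 0`. -/
theorem result (f : ℝ → ℂ) (hc : Continuous f) (he : ∀ x, f (-x) = f x)
    (hw : Integrable (fun x : ℝ => (‖f x‖ ^ 2 + ‖𝓕 f x‖ ^ 2) * (1 + x ^ 2)))
    (hz : ∀ n : ℕ, f (Real.sqrt n) = 0) (hz' : ∀ n : ℕ, 𝓕 f (Real.sqrt n) = 0) :
    f = 0 := by
  funext x
  exact main_of Pool.Agent.W12.SqMeas.main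
    (Pool.Agent.W741.SqUniq.main Pool.Agent.W345.SQ.main Pool.Agent.W741.SqMax.main)
    Pool.Agent.W345.SQ.mainFin Pool.Agent.W345.Phi.main1 Pool.Agent.W345.Phi.main2
    Phi3.main Pool.Agent.W345.Phi.main4 f hc he hw hz hz' x

end Pool.Agent.Results.MP_860c65_an.SqrtUniqueness
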